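import Pool.Agent.Helper60.GUM.St

/-!
Project GUM (MP_0bd1d1_al), module WTS: weight functions.
-/

set_option autoImplicit false

open Module GUM
open OG (act act_at act_mul act_rsmul mem_smul)

namespace Pool.Agent.Helper9.GUM

section geo

variable {k F X : Type*} [Field k] [Field F] [Algebra k F] [AddCommGroup X] [Module F X]
  {σ : F ≃ₐ[k] F} {B : HForm σ X} {Y Z : Submodule F X} {p p' y v : X} {c : F}

private theorem wts_smul_eq (S : Submodule F X) (hp : B.f p p = 0) (hv : B.f v p = 0)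
    (h1 : ∀ x ∈ S, hL B p v c x ∈ S) (h2 : ∀ x ∈ S, hL B p (-v) (-c - B.f v v) x ∈ S) :
    hE B p v c hp hv • S = S := by
  apply le_antisymm
  · rintro x hx
    obtain ⟨w, hw, rfl⟩ := (mem_smul _ _ _).1 hx
    exact h1 w hw
  · intro x hx
    refine (mem_smul _ _ _).2 ⟨hL B p (-v) (-c - B.f v v) x, h2 x hx, ?_⟩
    exact (hE B p v c hp hv).apply_symm_apply x

private theorem wts_stab1 {A : Submodule F X} (hA : A ≤ pp B Y p p') (hp : B.f p p = 0)
    (hv : B.f v p = 0) : hE B p v c hp hv • jn p A = jn p A := by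
  have key : ∀ (u : X) (d : F), ∀ x ∈ jn p A, hL B p u d x ∈ jn p A := by
    intro u d x hx
    have hpx : B.f x p = 0 := by
      obtain ⟨y, hy, a, ha, rfl⟩ := Submodule.mem_sup.1 hx
      obtain ⟨c, rfl⟩ := Submodule.mem_span_singleton.1 hy
      rw [B.add, B.smul, hp, (mem_pp.1 (hA ha)).2.1]
      simp
    have hpm : p ∈ jn p A := Submodule.mem_sup_left (Submodule.mem_span_singleton_self p)
    rw [hL_apply, hpx]
    simp only [zero_smul, add_zero, mul_zero]
    exact Submodule.sub_mem _ hx (Submodule.smul_mem _ _ hpm)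
  exact wts_smul_eq _ hp hv (key _ _) (key _ _)

private theorem wts_stab2 {A : Submodule F X} (hA : A ≤ pp B Y p p') (hp : B.f p p = 0)
    (hv : B.f v p = 0) (hvA : ∀ a ∈ A, B.f a v = 0) : hE B p v c hp hv • A = A := by
  have key : ∀ (u : X) (d : F), (∀ a ∈ A, B.f a u = 0) → ∀ x ∈ A, hL B p u d x ∈ A := by
    intro u d hu x hx
    rw [hL_apply, (mem_pp.1 (hA hx)).2.1, hu x hx]
    simpa using hx
  exact wts_smul_eq _ hp hv (key _ _ hvA)
    (key _ _ (fun a ha => by rw [B.neg_r, hvA a ha, neg_zero]))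

private theorem wts_stab3 {i : ℕ} {A : Submodule F X}
    (hA : A ∈ Sk B (pp B Y p p') i) (hvA : v ∈ A) (hp : B.f p p = 0) (hv : B.f v p = 0) :
    hE B p v 0 hp hv • jn p' A = jn p' A := by
  obtain ⟨hAZ, -, hAs⟩ := hA
  have key : ∀ u ∈ A, ∀ x ∈ jn p' A, hL B p u 0 x ∈ jn p' A := by
    intro u hu x hx
    have hux : B.f x u = 0 := by
      obtain ⟨y, hy, a, ha, rfl⟩ := Submodule.mem_sup.1 hx
      obtain ⟨c, rfl⟩ := Submodule.mem_span_singleton.1 hy
      rw [B.add, B.smul, B.swap0 (mem_pp.1 (hAZ hu)).2.2, hAs a ha u hu]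
      simp
    rw [hL_apply, hux]
    simp only [zero_smul, sub_zero, zero_mul, add_zero]
    exact Submodule.add_mem _ hx (Submodule.smul_mem _ _ (Submodule.mem_sup_right hu))
  refine wts_smul_eq _ hp hv (key v hvA) ?_
  have e : -(0 : F) - B.f v v = 0 := by rw [hAs v hvA v hvA, neg_zero, sub_zero]
  rw [e]
  exact key (-v) (A.neg_mem hvA)

/-- Double orthogonal space. -/
private theorem wts_dbl [FiniteDimensional F X] (hZ : ND B Z) {A : Submodule F X} (hA : A ≤ Z)
    (hy : y ∈ Z) (hl : ∀ v ∈ Z, (∀ a ∈ A, B.f v a = 0) → B.f v y = 0) : y ∈ A := by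
  let T : Submodule F (Dual F Z) :=
    { carrier := {φ | ∃ a ∈ A, ∀ v : Z, φ v = B.f (v : X) a}
      zero_mem' := ⟨0, A.zero_mem, fun v => by rw [B.zero_r, LinearMap.zero_apply]⟩
      add_mem' := by
        rintro φ ψ ⟨a, ha, h1⟩ ⟨b, hb, h2⟩
        exact ⟨a + b, A.add_mem ha hb, fun v => by rw [B.add_r, LinearMap.add_apply, h1, h2]⟩
      smul_mem' := by
        rintro c φ ⟨a, ha, h1⟩
        refine ⟨σ.symm c • a, A.smul_mem _ ha, fun v => ?_⟩
        rw [B.smul_r, AlgEquiv.apply_symm_apply, LinearMap.smul_apply, h1, smul_eq_mul] }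
  have hmem : (B.l y).comp Z.subtype ∈ T := by
    rw [← Subspace.dualCoannihilator_dualAnnihilator_eq (W := T),
      Submodule.mem_dualAnnihilator]
    intro v hv
    rw [Submodule.mem_dualCoannihilator] at hv
    apply hl _ v.2
    intro a ha
    exact hv ((B.l a).comp Z.subtype) ⟨a, ha, fun w => rfl⟩
  obtain ⟨a, ha, hav⟩ := hmem
  have h0 : a - y = 0 := by
    by_contra hne
    obtain ⟨z, hz, hz0⟩ := hZ (a - y) (Z.sub_mem (hA ha) hy) hne
    apply hz0
    apply B.swap0
    rw [B.sub_r, sub_eq_zero]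
    exact (hav ⟨z, hz⟩).symm
  rw [← sub_eq_zero.1 h0]
  exact ha

end geo

section wts

variable {k F X : Type*} [Field k] [Field F] [Algebra k F] [AddCommGroup X] [Module F X]
  {σ : F ≃ₐ[k] F} {B : HForm σ X} {R K : Type*} [Field K] [CommRing R] [Algebra R K]
  {Y : Submodule F X} {p p' y : X} {h : HP B Y p p'} {χ : AddChar F R}
  {f : Submodule F X → K}

private theorem wts_zero_on [IsDomain R] [IsFractionRing R K] (hχ : ∃ c, χ c ≠ 1)
    (hf : f ∈ WU K h χ y) {w : Submodule F X} (hw : f w ≠ 0) (v : ↥(pp B Y p p'))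
    (hU : ∀ a : F, ∃ c, Adm B (a • v).1 c ∧ eV h (a • v) c • w = w) : B.f v.1 y = 0 := by
  have key : ∀ a : F, χ (B.f (a • v).1 y) = 1 := by
    intro a
    obtain ⟨c, hc, hcw⟩ := hU a
    have h1 : act (eV h (a • v) c) f (eV h (a • v) c • w) = f w := act_at _ _ _
    rw [hcw, hf (a • v) c hc, Pi.smul_apply, Algebra.smul_def] at h1
    have h2 : algebraMap R K (χ (B.f (a • v).1 y)) = 1 := by
      have : algebraMap R K (χ (B.f (a • v).1 y)) * f w = 1 * f w := by rw [h1, one_mul]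
      exact mul_right_cancel₀ hw this
    exact IsFractionRing.injective R K (by rw [h2, map_one])
  by_contra h0
  obtain ⟨c, hc⟩ := hχ
  apply hc
  have := key (c / B.f v.1 y)
  rwa [Submodule.coe_smul, B.smul, div_mul_cancel₀ c h0] at this

private theorem wts_translate (hf : f ∈ WU K h χ y) (v : ↥(pp B Y p p')) (c : F)
    (hc : Adm B v.1 c) (W : Submodule F X) (hW : f W = 0) : f (eV h v c • W) = 0 := by
  have h1 : act (eV h v c) f (eV h v c • W) = f W := act_at _ _ _
  rw [hf v c hc, Pi.smul_apply, hW] at h1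
  have h2 : χ (-(B.f v.1 y)) • (χ (B.f v.1 y) • f (eV h v c • W)) = χ (-(B.f v.1 y)) • (0 : K) := by
    rw [h1]
  rw [smul_smul, ← AddChar.map_add_eq_mul, neg_add_cancel, AddChar.map_zero_eq_one, one_smul,
    smul_zero] at h2
  exact h2

private theorem wts_conj (g : X ≃ₗ[F] X) (y' : X)
    (hg : ∀ (v : ↥(pp B Y p p')) (c : F), Adm B v.1 c → ∃ (v' : ↥(pp B Y p p')) (c' : F),
      Adm B v'.1 c' ∧ (∀ x, g (eV h v c x) = eV h v' c' (g x)) ∧ B.f v'.1 y = B.f v.1 y')
    (hf : f ∈ WU K h χ y) : act g⁻¹ f ∈ WU K h χ y' := by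
  intro v c hc
  obtain ⟨v', c', hc', he, hb⟩ := hg v c hc
  have h0 : g * eV h v c = eV h v' c' * g := by
    ext x
    exact he x
  have h1 : eV h v c * g⁻¹ = g⁻¹ * eV h v' c' := by
    have : g * eV h v c * g⁻¹ = eV h v' c' := by
      rw [h0]
      group
    rw [← this]
    group
  rw [← act_mul, h1, act_mul, hf v' c' hc', act_rsmul, hb]

end wts

/-- WTS: weight functions. -/
theorem hWts {k F X : Type*} [Field k] [Field F] [Algebra k F] [AddCommGroup X] [Module F X]
    {σ : F ≃ₐ[k] F} {B : HForm σ X} (R K : Type*) [Field K] [CommRing R] [Algebra R K]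
    [IsDomain R] [IsFractionRing R K] [FiniteDimensional F X] (hQ : UN.QE σ) (hG : StGrp B)
    (hH : StHyp B) (χ : AddChar F R) (hχ : ∃ c, χ c ≠ 1) : StWts R K B χ where
  tr Y p p' h y f hf v c hc W hW := wts_translate hf v c hc W hW
  w1 Y p p' h y f hY hy hf A hA h0 := by
    by_contra hne
    obtain ⟨z, hz, hz0⟩ := hH.nd Y p p' h hY y hy hne
    apply hz0
    apply B.swap0
    refine wts_zero_on hχ hf h0 ⟨z, hz⟩ (fun a => ?_)
    obtain ⟨c, hc⟩ := hH.adm (a • (⟨z, hz⟩ : ↥(pp B Y p p'))).1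
    exact ⟨c, hc, wts_stab1 hA h.q1 _⟩
  w2 Y p p' h y f hY hy hf A hA h0 := by
    refine wts_dbl (hH.nd Y p p' h hY) hA hy ?_
    intro v hv hvA
    refine wts_zero_on hχ hf h0 ⟨v, hv⟩ (fun a => ?_)
    obtain ⟨c, hc⟩ := hH.adm (a • (⟨v, hv⟩ : ↥(pp B Y p p'))).1
    refine ⟨c, hc, wts_stab2 hA h.q1 _ ?_⟩
    intro b hb
    rw [Submodule.coe_smul, B.smul_r, B.swap0 (hvA b hb), mul_zero]
  w3 Y p p' h y f i hy hf A hA h0 a ha := by
    refine wts_zero_on hχ hf h0 ⟨a, hA.1 ha⟩ (fun b => ?_)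
    have hba : b • a ∈ A := A.smul_mem b ha
    refine ⟨0, ?_, wts_stab3 hA hba h.q1 _⟩
    change (0 : F) + σ 0 + B.f (b • a) (b • a) = 0
    rw [hA.2.2 _ hba _ hba, map_zero, add_zero, add_zero]
  cj Y p p' h y f hf g hg := by
    refine wts_conj g (g⁻¹ y) ?_ hf
    intro v c hc
    obtain ⟨gp, gp'⟩ := hG.fix Y p p' g hg
    have hgv : g v.1 ∈ pp B Y p p' := (hG.mem _ g hg v.1).2 v.2
    refine ⟨⟨g v.1, hgv⟩, c, ?_, ?_, ?_⟩
    · change c + σ c + B.f (g v.1) (g v.1) = 0
      rw [hg.1]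
      exact hc
    · intro x
      change g (hE B p v.1 c _ _ x) = hE B p (g v.1) c _ _ (g x)
      rw [hE_apply, hE_apply, hg.1]
      have e : B.f (g x) p = B.f x p := by
        conv_lhs => rw [← gp]
        exact hg.1 x p
      rw [e]
      simp only [map_add, map_sub, map_smul, gp]
    · have e := hg.1 v.1 (g⁻¹ y)
      have e2 : g (g⁻¹ y) = y := g.apply_symm_apply y
      rw [e2] at e
      exact e
  tor Y p p' h y f hf c t hc ht tp tp' tf := by
    refine wts_conj t (c • y) ?_ hf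
    intro v d hd
    have hm := mem_pp.1 v.2
    have hcv : σ c • v.1 ∈ pp B Y p p' := (pp B Y p p').smul_mem _ v.2
    have hcc : σ (σ c) = c := hQ.inv c
    refine ⟨⟨σ c • v.1, hcv⟩, d * (c * σ c), ?_, ?_, ?_⟩
    · change d * (c * σ c) + σ (d * (c * σ c)) + B.f (σ c • v.1) (σ c • v.1) = 0
      have hd' : d + σ d + B.f v.1 v.1 = 0 := hd
      rw [B.smul, B.smul_r, map_mul, map_mul, hcc]
      linear_combination (c * σ c) * hd'
    · intro x
      change t (hE B p v.1 d _ _ x) = hE B p (σ c • v.1) (d * (c * σ c)) _ _ (t x)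
      have e1 : B.f (t x) p = (σ c)⁻¹ * B.f x p := by
        have h1 : B.f (t x) (t p) = B.f x p := ht.1 x p
        rw [tp, B.smul_r] at h1
        have hs : σ c ≠ 0 := by
          intro hs
          exact hc (by rw [← hcc, hs, map_zero])
        rw [← h1, inv_mul_cancel_left₀ hs]
      have hs : σ c ≠ 0 := by
        intro hs
        exact hc (by rw [← hcc, hs, map_zero])
      have tv : t v.1 = v.1 := tf v.1 hm.2.1 hm.2.2
      have e2 : B.f (t x) v.1 = B.f x v.1 := by
        conv_lhs => rw [← tv]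
        exact ht.1 x v.1
      rw [hE_apply, hE_apply, B.smul_r, hcc, e1, e2]
      simp only [map_add, map_sub, map_smul, tp, tv, smul_smul]
      have a1 : (σ c)⁻¹ * B.f x p * σ c = B.f x p := by
        field_simp
      have a2 : d * (c * σ c) * ((σ c)⁻¹ * B.f x p) = d * B.f x p * c := by
        field_simp
      rw [a1, a2, mul_comm c (B.f x v.1)]
    · change B.f (σ c • v.1) y = B.f v.1 (c • y)
      rw [B.smul, B.smul_r]
  ti Y p p' h y := by
    rintro f hf g ⟨c, hc, hgc⟩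
    have h0 : Adm B (0 : ↥(pp B Y p p')).1 c := by
      change c + σ c + B.f (0 : X) 0 = 0
      rw [B.zero_l, add_zero]
      exact hc
    have e : g = eV h 0 c := by
      ext x
      change g x = hE B p (0 : X) c _ _ x
      rw [hgc, hE_apply, B.zero_r]
      simp
    rw [e, hf 0 c h0]
    change χ (B.f (0 : X) y) • f = f
    rw [B.zero_l, AddChar.map_zero_eq_one, one_smul]

end Pool.Agent.Helper9.GUM
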